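import Pool.Agent.SimpleSpectrum.Final

/-!
# Unbounded multiplicity of the simple length spectrum of moduli space

For `g = 11` and every `N` there is an `r` such that more than `N` pairwise non-conjugate
pseudo-Anosov mapping classes, each represented by a simple closed Teichmueller geodesic in the
moduli space of closed surfaces of genus `g`, have `log λ = r`.
-/

set_option autoImplicit false

namespace Pool.Agent.Results.MP_f17b37_gt.UnboundedMultiplicity

open Pool.Agent.SimpleSpectrum

theorem result : ∃ (S : Type) (_ : TopologicalSpace S), CompactSpace S ∧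
    T2Space S ∧ ConnectedSpace S ∧ ∀ N : ℕ, ∃ r : ℝ, 0 < r ∧ ∃ f : Fin (N + 1) → (S ≃ₜ S),
      (∀ i, ∃ H : HalfTranslation S, H.HasGenus 11 ∧ H.IsPseudoAnosov (f i) r ∧
        H.IsSimpleClosedGeodesic r) ∧ ∀ i j, i ≠ j → ¬ ConjugateMCG (f i) (f j) :=
  main

end Pool.Agent.Results.MP_f17b37_gt.UnboundedMultiplicity
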